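import Pool.Agent.H20.QL.Defs

/-!
# Module TAIL of project UQL (finite part)
-/

set_option autoImplicit false
open Finset Matrix

namespace Pool.Agent.H20.QL

namespace TAIL

/-- quadratic form of a kernel -/
def qf {W : Type} [Fintype W] (Q : W → W → ℝ) (u : W → ℝ) : ℝ := ∑ i, ∑ j, u i * Q i j * u j

lemma qf_eq {W : Type} [Fintype W] (Q : Matrix W W ℝ) (u : W → ℝ) :
    u ⬝ᵥ (Q *ᵥ u) = qf Q u := by
  unfold qf
  simp only [dotProduct, mulVec, mul_sum, mul_assoc]

lemma qf_cons {n : ℕ} (Q : Fin (n + 1) → Fin (n + 1) → ℝ) (hs : ∀ i j, Q i j = Q j i)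
    (s : ℝ) (u : Fin n → ℝ) :
    qf Q (Fin.cons s u) = Q 0 0 * s ^ 2 + 2 * s * ∑ i, Q 0 (Fin.succ i) * u i +
      qf (fun i j => Q i.succ j.succ) u := by
  unfold qf
  rw [Fin.sum_univ_succ]
  simp only [Fin.sum_univ_succ, Fin.cons_zero, Fin.cons_succ]
  have h1 : ∀ i : Fin n, Q i.succ 0 = Q 0 i.succ := fun i => hs _ _
  simp only [h1, sum_add_distrib]
  have h2 : ∑ x : Fin n, u x * Q 0 x.succ * s = s * ∑ i, Q 0 (Fin.succ i) * u i := by
    rw [mul_sum]; apply sum_congr rfl; intros; ring
  have h3 : ∑ x : Fin n, s * Q 0 x.succ * u x = s * ∑ i, Q 0 (Fin.succ i) * u i := by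
    rw [mul_sum]; apply sum_congr rfl; intros; ring
  rw [h2, h3]
  ring

lemma sg_sq (b : Bool) : sg b ^ 2 = 1 := by cases b <;> simp [sg]

lemma mgf_fin : ∀ (n : ℕ) (Q : Fin n → Fin n → ℝ), (∀ i j, Q i j = Q j i) →
    (∀ u, 0 ≤ qf Q u) → (∀ u, qf Q u ≤ ∑ i, u i ^ 2) →
    ∑ η : Fin n → Bool, Real.exp (qf Q (fun x => sg (η x)) / 4) ≤
      2 ^ n * Real.exp ((∑ i, Q i i) / 2) := by
  intro n
  induction n with
  | zero =>
    intro Q _ _ _
    simp [qf]
  | succ n ih =>
    intro Q hs h0 h1
    set a := Q 0 0 with ha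
    set q : Fin n → ℝ := fun i => Q 0 i.succ with hq
    set Q' : Fin n → Fin n → ℝ := fun i j => Q i.succ j.succ with hQ'
    have hc : ∀ (s : ℝ) (u : Fin n → ℝ), qf Q (Fin.cons s u) =
        a * s ^ 2 + 2 * s * ∑ i, q i * u i + qf Q' u := fun s u => qf_cons Q hs s u
    have hn : ∀ (s : ℝ) (u : Fin n → ℝ), ∑ i, (Fin.cons s u : Fin (n + 1) → ℝ) i ^ 2 =
        s ^ 2 + ∑ i, u i ^ 2 := by
      intro s u
      rw [Fin.sum_univ_succ]
      simp
    have hQ0 : ∀ u, 0 ≤ qf Q' u := by
      intro u
      have := h0 (Fin.cons 0 u)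
      rw [hc] at this
      simpa using this
    have hQ1 : ∀ u, qf Q' u ≤ ∑ i, u i ^ 2 := by
      intro u
      have := h1 (Fin.cons 0 u)
      rw [hc, hn] at this
      simpa using this
    have ha0 : 0 ≤ a := by
      have := h0 (Fin.cons 1 0)
      rw [hc] at this
      simpa [qf] using this
    have hN : ∑ i, q i ^ 2 ≤ a := by
      have e1 := h0 (Fin.cons (-1) q)
      rw [hc] at e1
      have e2 := hQ1 q
      have e3 : ∑ i, q i * q i = ∑ i, q i ^ 2 := by
        apply sum_congr rfl; intros; ring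
      rw [e3] at e1
      linarith
    set Q2 : Fin n → Fin n → ℝ := fun i j => Q' i j + 1 / 2 * (q i * q j) with hQ2
    have hq2 : ∀ u, qf Q2 u = qf Q' u + 1 / 2 * (∑ i, q i * u i) ^ 2 := by
      intro u
      unfold qf
      rw [_root_.sq (∑ i, q i * u i), sum_mul_sum, mul_sum, ← sum_add_distrib]
      apply sum_congr rfl
      intro i _
      rw [mul_sum, ← sum_add_distrib]
      apply sum_congr rfl
      intro j _
      simp only [hQ2]
      ring
    have hih := ih Q2 (by
        intro i j
        simp only [hQ2, hQ']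
        rw [hs i.succ j.succ]
        ring)
      (by
        intro u
        rw [hq2]
        have := hQ0 u
        positivity)
      (by
        intro u
        rw [hq2]
        have e1 := h1 (Fin.cons (∑ i, q i * u i) u)
        rw [hc, hn] at e1
        have e2 : 0 ≤ a * (∑ i, q i * u i) ^ 2 := by positivity
        nlinarith [sq_nonneg (∑ i, q i * u i)])
    have hsum : ∑ η : Fin (n + 1) → Bool, Real.exp (qf Q (fun x => sg (η x)) / 4) =
        ∑ η : Fin n → Bool, ∑ s : Bool,
          Real.exp ((a * sg s ^ 2 + 2 * sg s * ∑ i, q i * sg (η i) +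
            qf Q' (fun x => sg (η x))) / 4) := by
      rw [← (Fin.consEquiv (fun _ : Fin (n + 1) => Bool)).sum_comp, Fintype.sum_prod_type,
        sum_comm]
      apply sum_congr rfl
      intro η _
      apply sum_congr rfl
      intro s _
      rw [← hc]
      congr 2
      unfold qf
      have : (fun x => sg ((Fin.consEquiv (fun _ : Fin (n + 1) => Bool)) (s, η) x)) =
          (Fin.cons (sg s) (fun x => sg (η x)) : Fin (n + 1) → ℝ) := by
        funext x
        refine Fin.cases ?_ ?_ x
        · simp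
        · intro i; simp
      rw [← this]
    rw [hsum]
    have hstep : ∀ η : Fin n → Bool, ∑ s : Bool,
          Real.exp ((a * sg s ^ 2 + 2 * sg s * ∑ i, q i * sg (η i) +
            qf Q' (fun x => sg (η x))) / 4) ≤
        2 * Real.exp (a / 4) * Real.exp (qf Q2 (fun x => sg (η x)) / 4) := by
      intro η
      set t := ∑ i, q i * sg (η i) with ht
      rw [Fintype.sum_bool]
      have e1 : Real.exp ((a * sg true ^ 2 + 2 * sg true * t +
            qf Q' (fun x => sg (η x))) / 4) =
          Real.exp (a / 4) * Real.exp (qf Q' (fun x => sg (η x)) / 4) * Real.exp (t / 2) := by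
        rw [← Real.exp_add, ← Real.exp_add]
        congr 1
        simp only [sg, if_true]
        ring
      have e2 : Real.exp ((a * sg false ^ 2 + 2 * sg false * t +
            qf Q' (fun x => sg (η x))) / 4) =
          Real.exp (a / 4) * Real.exp (qf Q' (fun x => sg (η x)) / 4) * Real.exp (-(t / 2)) := by
        rw [← Real.exp_add, ← Real.exp_add]
        congr 1
        simp only [sg]
        norm_num
        ring
      rw [e1, e2, ← mul_add, hq2, ← ht]
      have e3 : Real.exp (t / 2) + Real.exp (-(t / 2)) = 2 * Real.cosh (t / 2) := by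
        rw [Real.cosh_eq]; ring
      have e4 := Real.cosh_le_exp_half_sq (t / 2)
      have e5 : Real.exp ((qf Q' (fun x => sg (η x)) + 1 / 2 * t ^ 2) / 4) =
          Real.exp (qf Q' (fun x => sg (η x)) / 4) * Real.exp ((t / 2) ^ 2 / 2) := by
        rw [← Real.exp_add]
        congr 1
        ring
      rw [e3, e5]
      have e6 : 0 < Real.exp (a / 4) * Real.exp (qf Q' (fun x => sg (η x)) / 4) := by positivity
      nlinarith [mul_le_mul_of_nonneg_left e4 e6.le]
    calc _ ≤ ∑ η : Fin n → Bool,
          2 * Real.exp (a / 4) * Real.exp (qf Q2 (fun x => sg (η x)) / 4) :=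
          sum_le_sum fun η _ => hstep η
      _ = 2 * Real.exp (a / 4) * ∑ η : Fin n → Bool,
          Real.exp (qf Q2 (fun x => sg (η x)) / 4) := by rw [mul_sum]
      _ ≤ 2 * Real.exp (a / 4) * (2 ^ n * Real.exp ((∑ i, Q2 i i) / 2)) :=
          mul_le_mul_of_nonneg_left hih (by positivity)
      _ = 2 ^ (n + 1) * Real.exp (a / 4 + (∑ i, Q2 i i) / 2) := by
          rw [Real.exp_add]; ring
      _ ≤ 2 ^ (n + 1) * Real.exp ((∑ i, Q i i) / 2) := by
          apply mul_le_mul_of_nonneg_left _ (by positivity)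
          apply Real.exp_le_exp.2
          have e1 : ∑ i, Q i i = a + ∑ i, Q' i i := by rw [Fin.sum_univ_succ]
          have e2 : ∑ i, Q2 i i = ∑ i, Q' i i + 1 / 2 * ∑ i, q i ^ 2 := by
            rw [mul_sum, ← sum_add_distrib]
            apply sum_congr rfl
            intro i _
            simp only [hQ2]
            ring
          rw [e1, e2]
          linarith

lemma qf_comp {W : Type} [Fintype W] {n : ℕ} (e : W ≃ Fin n) (Q : W → W → ℝ)
    (u : Fin n → ℝ) : qf (fun i j => Q (e.symm i) (e.symm j)) u = qf Q (fun x => u (e x)) := by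
  unfold qf
  rw [← e.sum_comp]
  apply sum_congr rfl
  intro i _
  rw [← e.sum_comp]
  simp

lemma mgf {W : Type} [Fintype W] [DecidableEq W] (Q : W → W → ℝ) (hs : ∀ i j, Q i j = Q j i)
    (h0 : ∀ u, 0 ≤ qf Q u) (h1 : ∀ u, qf Q u ≤ ∑ i, u i ^ 2) :
    ∑ η : W → Bool, Real.exp (qf Q (fun x => sg (η x)) / 4) ≤
      2 ^ (Fintype.card W) * Real.exp ((∑ i, Q i i) / 2) := by
  set e := Fintype.equivFin W
  have h := mgf_fin (Fintype.card W) (fun i j => Q (e.symm i) (e.symm j)) (fun i j => hs _ _)
    (fun u => by rw [qf_comp]; exact h0 _)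
    (fun u => by
      rw [qf_comp]
      refine (h1 _).trans (le_of_eq ?_)
      exact e.sum_comp (fun i => u i ^ 2))
  have e1 : ∑ i, Q (e.symm i) (e.symm i) = ∑ i, Q i i := e.symm.sum_comp (fun i => Q i i)
  rw [e1] at h
  refine le_trans (le_of_eq ?_) h
  rw [← (Equiv.arrowCongr e (Equiv.refl Bool)).sum_comp]
  apply sum_congr rfl
  intro η _
  rw [qf_comp]
  simp

end TAIL

open TAIL

theorem tail : TailStmt := by
  intro W _ _ k Q hs h0 h1 σ c
  set Qs : W → W → ℝ := fun i j => sg (σ i) * Q i j * sg (σ j) with hQs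
  have hqs : ∀ u : W → ℝ, qf Qs u = qf Q (fun x => sg (σ x) * u x) := by
    intro u
    unfold qf
    apply sum_congr rfl
    intro i _
    apply sum_congr rfl
    intro j _
    simp only [hQs]
    ring
  have hm := mgf Qs (by
      intro i j
      simp only [hQs]
      rw [hs.apply i j]
      ring)
    (fun u => by rw [hqs, ← qf_eq]; exact h0 _)
    (fun u => by
      rw [hqs, ← qf_eq]
      refine (h1 _).trans (le_of_eq ?_)
      simp only [dotProduct]
      apply sum_congr rfl
      intro i _
      have := sg_sq (σ i)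
      calc sg (σ i) * u i * (sg (σ i) * u i) = sg (σ i) ^ 2 * u i ^ 2 := by ring
        _ = u i ^ 2 := by rw [this, one_mul])
  have htr : ∑ i, Qs i i = Q.trace := by
    unfold trace
    apply sum_congr rfl
    intro i _
    simp only [hQs, diag_apply]
    have := sg_sq (σ i)
    calc sg (σ i) * Q i i * sg (σ i) = sg (σ i) ^ 2 * Q i i := by ring
      _ = Q i i := by rw [this, one_mul]
  rw [htr] at hm
  set F : (W → Bool) → ℝ := fun η => Real.exp (qf Qs (fun x => sg (η x)) / 4) with hF
  have hcard : (Nat.card {ε : W → Fin k → Bool // c < ∑ i, (fun x => sg (σ x) * sg (ε x i)) ⬝ᵥ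
        (Q *ᵥ fun x => sg (σ x) * sg (ε x i))} : ℝ) ≤
      ∑ ε : W → Fin k → Bool, Real.exp (-c / 4) * ∏ i, F (fun x => ε x i) := by
    classical
    rw [Nat.card_eq_fintype_card, Fintype.card_subtype, card_eq_sum_ones, Nat.cast_sum]
    calc _ ≤ ∑ ε ∈ (univ : Finset (W → Fin k → Bool)).filter (fun ε =>
          c < ∑ i, (fun x => sg (σ x) * sg (ε x i)) ⬝ᵥ
            (Q *ᵥ fun x => sg (σ x) * sg (ε x i))),
          Real.exp (-c / 4) * ∏ i, F (fun x => ε x i) := by
          apply sum_le_sum
          intro ε hε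
          rw [mem_filter] at hε
          rw [Nat.cast_one, ← Real.exp_sum, ← Real.exp_add]
          apply Real.one_le_exp
          have := hε.2
          simp only [qf_eq] at this
          simp only [hqs]
          rw [← sum_div]
          linarith
      _ ≤ _ := by
          apply sum_le_sum_of_subset_of_nonneg (filter_subset _ _)
          intro ε _ _
          apply mul_nonneg (Real.exp_pos _).le
          exact prod_nonneg fun i _ => (Real.exp_pos _).le
  refine hcard.trans ?_
  rw [← mul_sum]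
  have hprod : ∑ ε : W → Fin k → Bool, ∏ i, F (fun x => ε x i) =
      (∑ η : W → Bool, F η) ^ k := by
    have h1 := Fintype.sum_pow F k
    rw [h1, ← (Equiv.piComm (fun (_ : W) (_ : Fin k) => Bool)).sum_comp]
    rfl
  rw [hprod]
  have hpow : (∑ η : W → Bool, F η) ^ k ≤
      (2 ^ (Fintype.card W) * Real.exp (Q.trace / 2)) ^ k := by
    apply pow_le_pow_left₀ _ hm
    exact sum_nonneg fun η _ => (Real.exp_pos _).le
  calc Real.exp (-c / 4) * (∑ η : W → Bool, F η) ^ k
      ≤ Real.exp (-c / 4) * (2 ^ (Fintype.card W) * Real.exp (Q.trace / 2)) ^ k :=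
        mul_le_mul_of_nonneg_left hpow (Real.exp_pos _).le
    _ = 2 ^ (k * Fintype.card W) * Real.exp (-c / 4 + k / 2 * Q.trace) := by
        rw [mul_pow, ← pow_mul, ← Real.exp_nat_mul, Real.exp_add, mul_comm (Fintype.card W) k]
        have : (k : ℝ) * (Q.trace / 2) = k / 2 * Q.trace := by ring
        rw [this]
        ring

end Pool.Agent.H20.QL
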